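import Pool.Agent.H84.Scc

namespace Pool.Agent.Results.MP_3f847c_gt.No

open Pool.Agent.H84.SccDefs

theorem result : ∃ (X : Type) (_ : TopologicalSpace X), T35Space X ∧ ∃ K : Set (X → ℝ),
    (∀ f ∈ K, ScatCont f) ∧ IsCompact K ∧ Convex ℝ K ∧ netWeight X < weight K :=
  Pool.Agent.H84.Scc.main1

end Pool.Agent.Results.MP_3f847c_gt.No
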